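import Pool.Agent.Helper4.CD.St

/-!
Project CD (MP_a41ee4_co): module LIFT, making both vertices simple.
-/

set_option autoImplicit false

namespace Pool.Agent.Helper12.CD

open Pool.Agent.Helper4.CD
open Module

section defs

variable {K : Type} [Field K] {κ : Type} (S T : Set κ)

private abbrev WT (K : Type) {κ : Type} (S T : Set κ) : Type := (Option S → K) × (Option T → K)

private abbrev MT {κ : Type} (S T : Set κ) : Type := (Option S ⊕ Option T) ⊕ Bool

private def yc (s : Option S) : Dual K (WT K S T) :=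
  (LinearMap.proj s).comp (LinearMap.fst K (Option S → K) (Option T → K))

private def wc (t : Option T) : Dual K (WT K S T) :=
  (LinearMap.proj t).comp (LinearMap.snd K (Option S → K) (Option T → K))

private def ff [Fintype S] [Fintype T] : MT S T → Dual K (WT K S T)
  | Sum.inl (Sum.inl s) => yc S T s
  | Sum.inl (Sum.inr t) => wc S T t
  | Sum.inr false => -∑ s, yc S T s
  | Sum.inr true => -∑ t, wc S T t

open Classical in
private noncomputable def tt (k : κ) : Dual K (WT K S T) :=
  if h : k ∈ S then -yc S T (some ⟨k, h⟩) else if h : k ∈ T then -wc S T (some ⟨k, h⟩) else 0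

@[simp] private theorem yc_apply (s : Option S) (y : WT K S T) : yc S T s y = y.1 s := rfl

@[simp] private theorem wc_apply (t : Option T) (y : WT K S T) : wc S T t y = y.2 t := rfl

private theorem ff1 [Fintype S] [Fintype T] (s : Option S) (y : WT K S T) :
    ff S T (Sum.inl (Sum.inl s)) y = y.1 s := rfl

private theorem ff2 [Fintype S] [Fintype T] (t : Option T) (y : WT K S T) :
    ff S T (Sum.inl (Sum.inr t)) y = y.2 t := rfl

private theorem ff3 [Fintype S] [Fintype T] (y : WT K S T) :
    ff S T (Sum.inr false) y = -∑ s, y.1 s := by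
  simp [ff, LinearMap.sum_apply]

private theorem ff4 [Fintype S] [Fintype T] (y : WT K S T) :
    ff S T (Sum.inr true) y = -∑ t, y.2 t := by
  simp [ff, LinearMap.sum_apply]

private theorem tt1 {k : κ} (h : k ∈ S) (y : WT K S T) : tt S T k y = -y.1 (some ⟨k, h⟩) := by
  simp [tt, h]

private theorem tt2 {k : κ} (h' : k ∉ S) (h : k ∈ T) (y : WT K S T) :
    tt S T k y = -y.2 (some ⟨k, h⟩) := by
  simp [tt, h, h']

private theorem tt3 {k : κ} (h' : k ∉ S) (h : k ∉ T) (y : WT K S T) : tt S T k y = 0 := by
  simp [tt, h, h']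

end defs

section aux

variable {K : Type} [Field K] [LinearOrder K] [IsStrictOrderedRing K]

private theorem exists_small {κ : Type} [Finite κ] (γ : κ → K) (h : ∀ k, 0 < γ k) :
    ∃ δ : K, 0 < δ ∧ ∀ k, 6 * δ < γ k := by
  rcases isEmpty_or_nonempty κ with he | hne
  · exact ⟨1, one_pos, fun k => (he.false k).elim⟩
  · obtain ⟨k0, hk0⟩ := Finite.exists_min γ
    refine ⟨γ k0 / 7, by have := h k0; positivity, fun k => ?_⟩
    have h0 := h k0
    have h1 := hk0 k
    have h2 : 6 * (γ k0 / 7) = γ k0 * (6 / 7) := by ring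
    rw [h2]
    have h3 : γ k0 * (6 / 7 : K) < γ k0 * 1 := by
      apply mul_lt_mul_of_pos_left _ h0
      norm_num
    linarith

private theorem abs_le_of_sum {ι : Type} [Fintype ι] (z : ι → K) (N : K) (hN : 0 ≤ N)
    (h1 : ∀ i, -1 ≤ z i) (h2 : ∑ i, z i ≤ N) (i : ι) : |z i| ≤ N + Fintype.card ι := by
  classical
  have h3 : ∑ j, (z j + 1) ≤ N + Fintype.card ι := by
    rw [Finset.sum_add_distrib]
    simp only [Finset.sum_const, Finset.card_univ, nsmul_eq_mul, mul_one]
    linarith
  have h4 : z i + 1 ≤ ∑ j, (z j + 1) :=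
    Finset.single_le_sum (f := fun j => z j + 1) (fun j _ => by linarith [h1 j])
      (Finset.mem_univ i)
  have h5 : (1 : K) ≤ Fintype.card ι := by
    have : 0 < Fintype.card ι := Fintype.card_pos_iff.2 ⟨i⟩
    exact_mod_cast this
  rw [abs_le]
  constructor
  · linarith [h1 i]
  · linarith

end aux

section main

variable {K : Type} [Field K] [LinearOrder K] [IsStrictOrderedRing K] {V : Type} [AddCommGroup V]
  [Module K V] {κ : Type}

/-- the two base points -/
private def pa (K : Type) [Field K] {κ : Type} (S T : Set κ) : WT K S T := (fun _ => 1, fun _ => 0)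

private def pb (K : Type) [Field K] {κ : Type} (S T : Set κ) : WT K S T := (fun _ => 0, fun _ => 1)

private theorem gap1 (S T : Set κ) [Fintype S] [Fintype T] (m : MT S T) :
    1 ≤ |ff S T m (pa K S T) - ff S T m (pb K S T)| := by
  have hc : ∀ (ι : Type) [Fintype ι], (1 : K) ≤ Fintype.card (Option ι) := by
    intro ι _
    have : 0 < Fintype.card (Option ι) := Fintype.card_pos_iff.2 ⟨none⟩
    exact_mod_cast this
  rcases m with (s | t) | b
  · rw [ff1, ff1]; simp [pa, pb]
  · rw [ff2, ff2]; simp [pa, pb]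
  · cases b
    · rw [ff3, ff3]
      have := hc S
      simp only [pa, pb, Finset.sum_const, Finset.card_univ, nsmul_eq_mul, mul_one, mul_zero,
        neg_zero, sub_zero, abs_neg]
      rwa [abs_of_nonneg (by linarith)]
    · rw [ff4, ff4]
      have := hc T
      simp only [pa, pb, Finset.sum_const, Finset.card_univ, nsmul_eq_mul, mul_one, mul_zero,
        neg_zero, sub_neg_eq_add, zero_add]
      rwa [abs_of_nonneg (by linarith)]

private theorem sgn1 (S T : Set κ) [Fintype S] [Fintype T] (z : WT K S T) (m : MT S T)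
    (hz : |ff S T m (z - pb K S T)| < 1) (h : ff S T m (pa K S T) < ff S T m (pb K S T)) :
    ff S T m (pa K S T) < ff S T m z := by
  have h1 := gap1 (K := K) S T m
  rw [abs_sub_comm, abs_of_pos (sub_pos.2 h)] at h1
  rw [map_sub, abs_lt] at hz
  linarith [hz.1]

private theorem sgn2 (S T : Set κ) [Fintype S] [Fintype T] (z : WT K S T) (m : MT S T)
    (hz : |ff S T m (z - pb K S T)| < 1) (h : ff S T m (pb K S T) < ff S T m (pa K S T)) :
    ff S T m z < ff S T m (pa K S T) := by
  have h1 := gap1 (K := K) S T m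
  rw [abs_of_pos (sub_pos.2 h)] at h1
  rw [map_sub, abs_lt] at hz
  linarith [hz.2]

private theorem tau_a (S T : Set κ) (k : κ) :
    |tt S T k (pa K S T)| ≤ 1 := by
  by_cases h : k ∈ S
  · rw [tt1 S T h]; simp [pa]
  · by_cases h' : k ∈ T
    · rw [tt2 S T h h']; simp [pa]
    · rw [tt3 S T h h']; simp

private theorem tau_z (S T : Set κ) [Fintype S] [Fintype T] (z : WT K S T)
    (hz : ∀ m, |ff S T m (z - pb K S T)| < 1) (k : κ) :
    |tt S T k z| ≤ 2 := by
  by_cases h : k ∈ S
  · rw [tt1 S T h, abs_neg]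
    have := hz (Sum.inl (Sum.inl (some ⟨k, h⟩)))
    rw [ff1] at this
    simp only [pb, Prod.fst_sub, Pi.sub_apply, sub_zero] at this
    linarith
  · by_cases h' : k ∈ T
    · rw [tt2 S T h h', abs_neg]
      have := hz (Sum.inl (Sum.inr (some ⟨k, h'⟩)))
      rw [ff2] at this
      simp only [pb, Prod.snd_sub, Pi.sub_apply] at this
      rw [abs_lt] at this
      rw [abs_le]
      constructor <;> linarith [this.1, this.2]
    · rw [tt3 S T h h']; simp

/-- ASM part: everything for given sets of rows -/
private theorem core [Finite κ] (c : κ → Dual K V) (r : κ → K) (u v : V) (hP : Pair c r u v)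
    (A0 B0 : Set κ) (hA0 : A0 ⊆ {k | c k u = r k}) (hB0 : B0 ⊆ {k | c k v = r k})
    (hA0k : ∀ x, (∀ k ∈ A0, c k x = 0) → x = 0) (hB0k : ∀ x, (∀ k ∈ B0, c k x = 0) → x = 0)
    (S T : Set κ) [Fintype S] [Fintype T] (hS : S = {k | c k u = r k} \ A0)
    (hT : T = {k | c k v = r k} \ B0) (δ : K) (hδ1 : δ ≤ 1)
    (hgA : ∀ k, c k u = r k → 6 * δ < c k v - c k u)
    (hgB : ∀ k, c k v = r k → 6 * δ < c k u - c k v)
    (hgE : ∀ k ∈ Nei c r u v, 6 * δ < c k u - r k ∧ 6 * δ < c k v - r k)
    (ε : K) (v' : V × WT K S T) (hε : 0 < ε) (hεδ : ε < δ) (hv1 : ∀ k, |c k (v'.1 - v)| < δ)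
    (hv2 : ∀ m, |ff S T m (v'.2 - pb K S T)| < δ) :
    Pair (lift c (ff S T) (tt S T) ε)
        (liftR c (ff S T) (tt S T) ε r (Nei c r u v) (u, pa K S T) v') (u, pa K S T) v' ∧
      Nei (lift c (ff S T) (tt S T) ε)
        (liftR c (ff S T) (tt S T) ε r (Nei c r u v) (u, pa K S T) v') (u, pa K S T) v' =
          Sum.inl '' (Nei c r u v) ∧
      (∀ k, c k u = r k → lift c (ff S T) (tt S T) ε (Sum.inl k) (u, pa K S T) <
        lift c (ff S T) (tt S T) ε (Sum.inl k) v') ∧
      (∀ k, c k v = r k → lift c (ff S T) (tt S T) ε (Sum.inl k) v' <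
        lift c (ff S T) (tt S T) ε (Sum.inl k) (u, pa K S T)) ∧
      (∀ m, ff S T m (pa K S T) < ff S T m (pb K S T) → ff S T m (pa K S T) < ff S T m v'.2) ∧
      (∀ m, ff S T m (pb K S T) < ff S T m (pa K S T) → ff S T m v'.2 < ff S T m (pa K S T)) ∧
      ∀ y ∈ Poly (lift c (ff S T) (tt S T) ε)
        (liftR c (ff S T) (tt S T) ε r (Nei c r u v) (u, pa K S T) v'),
        ∀ k, |tt S T k y.2| ≤ (Fintype.card (Option S) : K) + Fintype.card (Option S) +
          ((Fintype.card (Option T) : K) + 1 + Fintype.card (Option T)) := by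
  classical
  have hST : Disjoint S T := by
    rw [Set.disjoint_left]
    intro k hk hk'
    rw [hS] at hk; rw [hT] at hk'
    exact hP.nb k ⟨hk.1, hk'.1⟩
  have hv3 : ∀ m, |ff S T m (v'.2 - pb K S T)| < 1 := fun m => (hv2 m).trans_le hδ1
  -- trichotomy
  have hu := hP.vu.1
  have hv := hP.vv.1
  have tri : ∀ k, c k u = r k ∨ c k v = r k ∨ k ∈ Nei c r u v := by
    intro k
    rcases (hu k).eq_or_lt with h | h
    · exact Or.inl h.symm
    · rcases (hv k).eq_or_lt with h' | h'
      · exact Or.inr (Or.inl h'.symm)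
      · exact Or.inr (Or.inr ⟨h, h'⟩)
  -- values of the lifted rows
  have La : ∀ k, lift c (ff S T) (tt S T) ε (Sum.inl k) (u, pa K S T) =
      c k u + ε * tt S T k (pa K S T) := fun k => rfl
  have Lv : ∀ k, lift c (ff S T) (tt S T) ε (Sum.inl k) v' =
      c k v'.1 + ε * tt S T k v'.2 := fun k => rfl
  have Ly : ∀ k (y : V × WT K S T), lift c (ff S T) (tt S T) ε (Sum.inl k) y =
      c k y.1 + ε * tt S T k y.2 := fun k y => rfl
  have Lm : ∀ m (y : V × WT K S T), lift c (ff S T) (tt S T) ε (Sum.inr m) y =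
      ff S T m y.2 := fun m y => rfl
  have ea : ∀ k, |lift c (ff S T) (tt S T) ε (Sum.inl k) (u, pa K S T) - c k u| < δ := by
    intro k
    rw [La, add_sub_cancel_left, abs_mul, abs_of_pos hε]
    have := tau_a (K := K) S T k
    have h1 : ε * |tt S T k (pa K S T)| ≤ ε * 1 := mul_le_mul_of_nonneg_left this hε.le
    linarith
  have ev : ∀ k, |lift c (ff S T) (tt S T) ε (Sum.inl k) v' - c k v| < 3 * δ := by
    intro k
    have h0 : lift c (ff S T) (tt S T) ε (Sum.inl k) v' - c k v =
        c k (v'.1 - v) + ε * tt S T k v'.2 := by rw [Lv, map_sub]; ring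
    rw [h0]
    have h1 := abs_add_le (c k (v'.1 - v)) (ε * tt S T k v'.2)
    have h2 := tau_z S T v'.2 hv3 k
    have h3 : |ε * tt S T k v'.2| ≤ ε * 2 := by
      rw [abs_mul, abs_of_pos hε]
      exact mul_le_mul_of_nonneg_left h2 hε.le
    have h4 := hv1 k
    linarith
  have oA : ∀ k, c k u = r k → lift c (ff S T) (tt S T) ε (Sum.inl k) (u, pa K S T) <
        lift c (ff S T) (tt S T) ε (Sum.inl k) v' := by
    intro k hk
    have h1 := hgA k hk
    have h2 := abs_lt.1 (ea k)
    have h3 := abs_lt.1 (ev k)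
    linarith [h2.1, h2.2, h3.1, h3.2]
  have oB : ∀ k, c k v = r k → lift c (ff S T) (tt S T) ε (Sum.inl k) v' <
        lift c (ff S T) (tt S T) ε (Sum.inl k) (u, pa K S T) := by
    intro k hk
    have h1 := hgB k hk
    have h2 := abs_lt.1 (ea k)
    have h3 := abs_lt.1 (ev k)
    linarith [h2.1, h2.2, h3.1, h3.2]
  have oE : ∀ k ∈ Nei c r u v, r k < lift c (ff S T) (tt S T) ε (Sum.inl k) (u, pa K S T) ∧
      r k < lift c (ff S T) (tt S T) ε (Sum.inl k) v' := by
    intro k hk
    have h1 := hgE k hk
    have h2 := abs_lt.1 (ea k)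
    have h3 := abs_lt.1 (ev k)
    constructor <;> linarith [h1.1, h1.2, h2.1, h2.2, h3.1, h3.2]
  have om1 := fun m => sgn1 S T v'.2 m (hv3 m)
  have om2 := fun m => sgn2 S T v'.2 m (hv3 m)
  -- right-hand sides
  set R := liftR c (ff S T) (tt S T) ε r (Nei c r u v) (u, pa K S T) v' with hR
  have RE : ∀ k ∈ Nei c r u v, R (Sum.inl k) = r k := by
    intro k hk; simp only [hR, liftR]; rw [if_pos hk]
  have nA : ∀ k, c k u = r k → k ∉ Nei c r u v := fun k hk h => by
    have := h.1; rw [hk] at this; exact lt_irrefl _ this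
  have nB : ∀ k, c k v = r k → k ∉ Nei c r u v := fun k hk h => by
    have := h.2; rw [hk] at this; exact lt_irrefl _ this
  have RA : ∀ k, c k u = r k → R (Sum.inl k) =
      lift c (ff S T) (tt S T) ε (Sum.inl k) (u, pa K S T) := by
    intro k hk; simp only [hR, liftR]; rw [if_neg (nA k hk), min_eq_left (oA k hk).le]
  have RB : ∀ k, c k v = r k → R (Sum.inl k) =
      lift c (ff S T) (tt S T) ε (Sum.inl k) v' := by
    intro k hk; simp only [hR, liftR]; rw [if_neg (nB k hk), min_eq_right (oB k hk).le]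
  have Rm : ∀ m, R (Sum.inr m) = min (ff S T m (pa K S T)) (ff S T m v'.2) := fun m => rfl
  have Rm1 : ∀ m, ff S T m (pa K S T) < ff S T m (pb K S T) →
      R (Sum.inr m) = ff S T m (pa K S T) := by
    intro m hm; rw [Rm, min_eq_left (om1 m hm).le]
  have Rm2 : ∀ m, ff S T m (pb K S T) < ff S T m (pa K S T) →
      R (Sum.inr m) = ff S T m v'.2 := by
    intro m hm; rw [Rm, min_eq_right (om2 m hm).le]
  have hcS : (1 : K) ≤ Fintype.card (Option S) := by
    have : 0 < Fintype.card (Option S) := Fintype.card_pos_iff.2 ⟨none⟩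
    exact_mod_cast this
  have hcT : (1 : K) ≤ Fintype.card (Option T) := by
    have : 0 < Fintype.card (Option T) := Fintype.card_pos_iff.2 ⟨none⟩
    exact_mod_cast this
  -- signs of the rows at the base points
  have s1 : ∀ s, ff S T (Sum.inl (Sum.inl s)) (pb K S T) <
      ff S T (Sum.inl (Sum.inl s)) (pa K S T) := by
    intro s; rw [ff1, ff1]; simp [pa, pb]
  have s2 : ∀ t, ff S T (Sum.inl (Sum.inr t)) (pa K S T) <
      ff S T (Sum.inl (Sum.inr t)) (pb K S T) := by
    intro s; rw [ff2, ff2]; simp [pa, pb]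
  have s3 : ff S T (Sum.inr false) (pa K S T) < ff S T (Sum.inr false) (pb K S T) := by
    rw [ff3, ff3]
    simp only [pa, pb, Finset.sum_const, Finset.card_univ, nsmul_eq_mul, mul_one, mul_zero,
        neg_zero]
    linarith
  have s4 : ff S T (Sum.inr true) (pb K S T) < ff S T (Sum.inr true) (pa K S T) := by
    rw [ff4, ff4]
    simp only [pa, pb, Finset.sum_const, Finset.card_univ, nsmul_eq_mul, mul_one, mul_zero,
        neg_zero]
    linarith
  -- feasibility
  have fu : (u, pa K S T) ∈ Poly (lift c (ff S T) (tt S T) ε) R := by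
    rintro (k | m)
    · rcases tri k with h | h | h
      · exact (RA k h).le
      · rw [RB k h]; exact (oB k h).le
      · rw [RE k h]; exact (oE k h).1.le
    · rw [Rm]; exact min_le_left _ _
  have fv : v' ∈ Poly (lift c (ff S T) (tt S T) ε) R := by
    rintro (k | m)
    · rcases tri k with h | h | h
      · rw [RA k h]; exact (oA k h).le
      · exact (RB k h).le
      · rw [RE k h]; exact (oE k h).2.le
    · rw [Rm]; exact min_le_right _ _
  have neS : ∀ k ∈ A0, k ∉ S ∧ k ∉ T := by
    intro k hk
    refine ⟨fun h => ?_, fun h => ?_⟩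
    · rw [hS] at h; exact h.2 hk
    · rw [hT] at h; exact hP.nb k ⟨hA0 hk, h.1⟩
  have neT : ∀ k ∈ B0, k ∉ S ∧ k ∉ T := by
    intro k hk
    refine ⟨fun h => ?_, fun h => ?_⟩
    · rw [hS] at h; exact hP.nb k ⟨h.1, hB0 hk⟩
    · rw [hT] at h; exact h.2 hk
  have vu : IsVertex (lift c (ff S T) (tt S T) ε) R (u, pa K S T) := by
    refine ⟨fu, fun y hy => ?_⟩
    have hx : y.1 = 0 := by
      apply hA0k
      intro k hk
      have h1 := hy (Sum.inl k) (RA k (hA0 hk)).symm
      rw [Ly, tt3 S T (neS k hk).1 (neS k hk).2, mul_zero, add_zero] at h1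
      exact h1
    have hys : ∀ s : S, y.2.1 (some s) = 0 := by
      rintro ⟨k, hk⟩
      have hkA : c k u = r k := by have := hk; rw [hS] at this; exact this.1
      have h1 := hy (Sum.inl k) (RA k hkA).symm
      rw [Ly, tt1 S T hk, hx, map_zero, zero_add] at h1
      have h2 := (mul_eq_zero.1 h1).resolve_left hε.ne'
      exact neg_eq_zero.1 h2
    have h3 : ∑ s, y.2.1 s = 0 := by
      have h1 := hy (Sum.inr (Sum.inr false)) (Rm1 _ s3).symm
      rw [Lm, ff3] at h1
      exact neg_eq_zero.1 h1
    have hyn : y.2.1 none = 0 := by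
      rw [Fintype.sum_option, Finset.sum_eq_zero (fun s _ => hys s), add_zero] at h3
      exact h3
    have hy1 : y.2.1 = 0 := by
      funext s; cases s with
      | none => exact hyn
      | some s => exact hys s
    have hy2 : y.2.2 = 0 := by
      funext t
      have h1 := hy (Sum.inr (Sum.inl (Sum.inr t))) (Rm1 _ (s2 t)).symm
      rw [Lm, ff2] at h1
      exact h1
    exact Prod.ext hx (Prod.ext hy1 hy2)
  have vv : IsVertex (lift c (ff S T) (tt S T) ε) R v' := by
    refine ⟨fv, fun y hy => ?_⟩
    have hx : y.1 = 0 := by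
      apply hB0k
      intro k hk
      have h1 := hy (Sum.inl k) (RB k (hB0 hk)).symm
      rw [Ly, tt3 S T (neT k hk).1 (neT k hk).2, mul_zero, add_zero] at h1
      exact h1
    have hys : ∀ s : T, y.2.2 (some s) = 0 := by
      rintro ⟨k, hk⟩
      have hkB : c k v = r k := by have := hk; rw [hT] at this; exact this.1
      have hkS : k ∉ S := Set.disjoint_right.1 hST hk
      have h1 := hy (Sum.inl k) (RB k hkB).symm
      rw [Ly, tt2 S T hkS hk, hx, map_zero, zero_add] at h1
      have h2 := (mul_eq_zero.1 h1).resolve_left hε.ne'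
      exact neg_eq_zero.1 h2
    have h3 : ∑ s, y.2.2 s = 0 := by
      have h1 := hy (Sum.inr (Sum.inr true)) (Rm2 _ s4).symm
      rw [Lm, ff4] at h1
      exact neg_eq_zero.1 h1
    have hyn : y.2.2 none = 0 := by
      rw [Fintype.sum_option, Finset.sum_eq_zero (fun s _ => hys s), add_zero] at h3
      exact h3
    have hy2 : y.2.2 = 0 := by
      funext s; cases s with
      | none => exact hyn
      | some s => exact hys s
    have hy1 : y.2.1 = 0 := by
      funext t
      have h1 := hy (Sum.inr (Sum.inl (Sum.inl t))) (Rm2 _ (s1 t)).symm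
      rw [Lm, ff1] at h1
      exact h1
    exact Prod.ext hx (Prod.ext hy1 hy2)
  have hne : ∀ m, ff S T m (pa K S T) < ff S T m (pb K S T) ∨
      ff S T m (pb K S T) < ff S T m (pa K S T) := by
    intro m
    apply lt_or_gt_of_ne
    intro h
    have := gap1 (K := K) S T m
    rw [h, sub_self, abs_zero] at this
    linarith
  refine ⟨⟨vu, vv, ?_⟩, ?_, oA, oB, om1, om2, ?_⟩
  · rintro (k | m) ⟨h1, h2⟩
    · rcases tri k with h | h | h
      · have := oA k h
        rw [h1, h2] at this; exact lt_irrefl _ this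
      · have := oB k h
        rw [h1, h2] at this; exact lt_irrefl _ this
      · have := (oE k h).1
        rw [h1, RE k h] at this; exact lt_irrefl _ this
    · rw [Lm] at h1 h2
      rcases hne m with h | h
      · have := om1 m h
        rw [h2, ← h1] at this; exact lt_irrefl _ this
      · have := om2 m h
        rw [h2, ← h1] at this; exact lt_irrefl _ this
  · ext s
    constructor
    · rintro ⟨h1, h2⟩
      rcases s with k | m
      · rcases tri k with h | h | h
        · rw [RA k h] at h1; exact (lt_irrefl _ h1).elim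
        · rw [RB k h] at h2; exact (lt_irrefl _ h2).elim
        · exact ⟨k, h, rfl⟩
      · rcases hne m with h | h
        · rw [Rm1 m h] at h1; exact (lt_irrefl _ h1).elim
        · rw [Rm2 m h] at h2; exact (lt_irrefl _ h2).elim
    · rintro ⟨k, hk, rfl⟩
      refine ⟨?_, ?_⟩
      · rw [RE k hk]; exact (oE k hk).1
      · rw [RE k hk]; exact (oE k hk).2
  · intro y hy k
    -- bounds for the two blocks
    have b1 : ∀ s, |y.2.1 s| ≤ (Fintype.card (Option S) : K) + Fintype.card (Option S) := by
      intro s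
      apply abs_le_of_sum _ _ (by linarith)
      · intro i
        have h1 := hy (Sum.inr (Sum.inl (Sum.inl i)))
        rw [Lm, ff1, Rm2 _ (s1 i), ff1] at h1
        have h2 := hv3 (Sum.inl (Sum.inl i))
        rw [ff1] at h2
        simp only [pb, Prod.fst_sub, Pi.sub_apply, sub_zero] at h2
        linarith [(abs_lt.1 h2).1]
      · have h1 := hy (Sum.inr (Sum.inr false))
        rw [Lm, Rm1 _ s3, ff3, ff3] at h1
        simp only [pa, Finset.sum_const, Finset.card_univ, nsmul_eq_mul, mul_one] at h1
        linarith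
    have b2 : ∀ s, |y.2.2 s| ≤ ((Fintype.card (Option T) : K) + 1) + Fintype.card (Option T) := by
      intro s
      apply abs_le_of_sum _ _ (by linarith)
      · intro i
        have h1 := hy (Sum.inr (Sum.inl (Sum.inr i)))
        rw [Lm, ff2, Rm1 _ (s2 i), ff2] at h1
        simp only [pa] at h1
        linarith
      · have h1 := hy (Sum.inr (Sum.inr true))
        rw [Lm, Rm2 _ s4, ff4, ff4] at h1
        have h2 := hv3 (Sum.inr true)
        rw [map_sub, ff4, ff4] at h2
        simp only [pb, Finset.sum_const, Finset.card_univ, nsmul_eq_mul, mul_one] at h2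
        linarith [(abs_lt.1 h2).1]
    by_cases h : k ∈ S
    · rw [tt1 S T h, abs_neg]
      linarith [b1 (some ⟨k, h⟩)]
    · by_cases h' : k ∈ T
      · rw [tt2 S T h h', abs_neg]
        linarith [b2 (some ⟨k, h'⟩)]
      · rw [tt3 S T h h', abs_zero]
        linarith

/-- LIFT: making both vertices simple -/
theorem hLIFT (h1 : StBAS) : StLIFT := by
  intro K _ _ _ V _ _ _ κ _ c r u v hP
  classical
  obtain ⟨A0, hA0, hA0c, hA0k⟩ := h1 K V κ c {k | c k u = r k} (fun x hx => hP.vu.2 x hx)
  obtain ⟨B0, hB0, hB0c, hB0k⟩ := h1 K V κ c {k | c k v = r k} (fun x hx => hP.vv.2 x hx)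
  obtain ⟨S, hS⟩ : ∃ S : Set κ, S = {k | c k u = r k} \ A0 := ⟨_, rfl⟩
  obtain ⟨T, hT⟩ : ∃ T : Set κ, T = {k | c k v = r k} \ B0 := ⟨_, rfl⟩
  let _ : Fintype S := Fintype.ofFinite S
  let _ : Fintype T := Fintype.ofFinite T
  have hu := hP.vu.1
  have hv := hP.vv.1
  -- the gap
  obtain ⟨δ1, hδ1, hγ⟩ := exists_small
    (fun k => if k ∈ Nei c r u v then min (c k u) (c k v) - r k else max (c k u) (c k v) - r k)
    (by
      intro k
      by_cases hk : k ∈ Nei c r u v
      · simp only [if_pos hk]
        exact sub_pos.2 (lt_min hk.1 hk.2)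
      · simp only [if_neg hk]
        rw [sub_pos, lt_max_iff]
        by_contra hcon
        push Not at hcon
        exact hP.nb k ⟨le_antisymm hcon.1 (hu k), le_antisymm hcon.2 (hv k)⟩)
  have nA : ∀ k, c k u = r k → k ∉ Nei c r u v := fun k hk h => by
    have := h.1; rw [hk] at this; exact lt_irrefl _ this
  have nB : ∀ k, c k v = r k → k ∉ Nei c r u v := fun k hk h => by
    have := h.2; rw [hk] at this; exact lt_irrefl _ this
  refine ⟨WT K S T, inferInstance, inferInstance, inferInstance, MT S T, inferInstance,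
    ff S T, tt S T, pa K S T, pb K S T, (Fintype.card (Option S) : K) + Fintype.card (Option S) +
          ((Fintype.card (Option T) : K) + 1 + Fintype.card (Option T)), ?_, ?_, ?_, ?_,
    min δ1 1, lt_min hδ1 one_pos, ?_⟩
  · intro y hy
    refine Prod.ext ?_ ?_
    · funext s; exact hy (Sum.inl (Sum.inl s))
    · funext t; exact hy (Sum.inl (Sum.inr t))
  · intro m h
    have := gap1 (K := K) S T m
    rw [h, sub_self, abs_zero] at this
    linarith
  · positivity
  · -- counting
    have e1 : Nat.card κ = ({k | c k u = r k} : Set κ).ncard + ({k | c k v = r k} : Set κ).ncard +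
        (Nei c r u v).ncard := by
      rw [← Set.ncard_univ, ← Set.ncard_union_eq, ← Set.ncard_union_eq]
      · congr 1
        ext k
        simp only [Set.mem_univ, true_iff]
        rcases (hu k).eq_or_lt with h | h
        · exact Or.inl (Or.inl h.symm)
        · rcases (hv k).eq_or_lt with h' | h'
          · exact Or.inl (Or.inr h'.symm)
          · exact Or.inr ⟨h, h'⟩
      · rw [Set.disjoint_left]
        rintro k (hk | hk) hk'
        · exact nA k hk hk'
        · exact nB k hk hk'
      · rw [Set.disjoint_left]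
        intro k hk hk'
        exact hP.nb k ⟨hk, hk'⟩
    have e2 : S.ncard + finrank K V = ({k | c k u = r k} : Set κ).ncard := by
      rw [hS, ← hA0c, Nat.card_coe_set_eq]
      exact Set.ncard_sdiff_add_ncard_of_subset hA0
    have e3 : T.ncard + finrank K V = ({k | c k v = r k} : Set κ).ncard := by
      rw [hT, ← hB0c, Nat.card_coe_set_eq]
      exact Set.ncard_sdiff_add_ncard_of_subset hB0
    have e4 : Fintype.card S = S.ncard := by
      rw [← Nat.card_eq_fintype_card, Nat.card_coe_set_eq]
    have e5 : Fintype.card T = T.ncard := by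
      rw [← Nat.card_eq_fintype_card, Nat.card_coe_set_eq]
    have e6 : Nat.card (MT S T) = S.ncard + 1 + (T.ncard + 1) + 2 := by
      rw [Nat.card_eq_fintype_card, Fintype.card_sum, Fintype.card_sum, Fintype.card_option,
        Fintype.card_option, Fintype.card_bool, e4, e5]
    have e7 : finrank K (WT K S T) = S.ncard + 1 + (T.ncard + 1) := by
      rw [Module.finrank_prod, Module.finrank_fintype_fun_eq_card,
        Module.finrank_fintype_fun_eq_card, Fintype.card_option, Fintype.card_option, e4, e5]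
    rw [e1, e6, e7, Nat.card_coe_set_eq]
    omega
  · intro ε v' hε hεδ hv1 hv2
    refine core c r u v hP A0 B0 hA0 hB0 hA0k hB0k S T hS hT (min δ1 1)
      (min_le_right _ _) ?_ ?_ ?_ ε v' hε hεδ hv1 hv2
    · intro k hk
      have h2 := hγ k
      simp only [if_neg (nA k hk)] at h2
      have h3 : c k u ≤ c k v := by rw [hk]; exact hv k
      rw [max_eq_right h3, ← hk] at h2
      have h4 := min_le_left δ1 (1 : K)
      linarith
    · intro k hk
      have h2 := hγ k
      simp only [if_neg (nB k hk)] at h2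
      have h3 : c k v ≤ c k u := by rw [hk]; exact hu k
      rw [max_eq_left h3, ← hk] at h2
      have h4 := min_le_left δ1 (1 : K)
      linarith
    · intro k hk
      have h2 := hγ k
      simp only [if_pos hk] at h2
      have h4 := min_le_left δ1 (1 : K)
      have h5 := min_le_left (c k u) (c k v)
      have h6 := min_le_right (c k u) (c k v)
      constructor <;> linarith

end main

end Pool.Agent.Helper12.CD
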